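import Pool.Agent.MP_f6b137_pr.H74.Base

/-! Small balls and tails for the standard Gaussian measure. -/

namespace Pool.Agent.MP_f6b137_pr.H56

open MeasureTheory ProbabilityTheory Filter Topology H74
open scoped Real RealInnerProductSpace

lemma gs (σ c δ : ℝ) (hσ : 0 < σ) :
    gaussianReal 0 (σ ^ 2).toNNReal {y | |c + y| ≤ δ} ≤ ENNReal.ofReal (δ / σ) := by
  have hs0 : (σ ^ 2).toNNReal ≠ 0 := by
    simp only [ne_eq, Real.toNNReal_eq_zero, not_le]; positivity
  have hb : ∀ x, gaussianPDF 0 (σ ^ 2).toNNReal x ≤ ENNReal.ofReal (1 / (2 * σ)) := by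
    intro x
    refine ENNReal.ofReal_le_ofReal ?_
    unfold gaussianPDFReal
    have h1 : 2 * σ ≤ Real.sqrt (2 * Real.pi * (σ ^ 2).toNNReal) := by
      apply Real.le_sqrt_of_sq_le
      rw [Real.coe_toNNReal _ (sq_nonneg σ)]
      nlinarith [Real.pi_gt_three, sq_nonneg σ]
    have h2 : Real.exp (-(x - 0) ^ 2 / (2 * (σ ^ 2).toNNReal)) ≤ 1 := by
      apply Real.exp_le_one_iff.2
      apply div_nonpos_of_nonpos_of_nonneg
      · nlinarith [sq_nonneg (x - 0)]
      · positivity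
    calc _ ≤ (2 * σ)⁻¹ * 1 := by gcongr
      _ = 1 / (2 * σ) := by ring
  have e : {y : ℝ | |c + y| ≤ δ} = Set.Icc (-δ - c) (δ - c) := by
    ext y
    simp only [Set.mem_ofPred_eq, abs_le, Set.mem_Icc]
    constructor <;> rintro ⟨h1, h2⟩ <;> constructor <;> linarith
  rw [e, gaussianReal_apply 0 hs0]
  calc _ ≤ ∫⁻ _x in Set.Icc (-δ - c) (δ - c), ENNReal.ofReal (1 / (2 * σ)) := lintegral_mono hb
    _ = ENNReal.ofReal (1 / (2 * σ)) * ENNReal.ofReal (δ - c - (-δ - c)) := by simp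
    _ = ENNReal.ofReal (δ / σ) := by
        rw [← ENNReal.ofReal_mul (by positivity)]
        congr 1
        field_simp
        ring

lemma markov {Ω : Type*} [MeasurableSpace Ω] (μ : Measure Ω) (f : Ω → ℝ) (h0 : ∀ x, 0 ≤ f x)
    (hf : Integrable f μ) {t : ℝ} (ht : 0 < t) : μ.real {x | t ≤ f x} ≤ (∫ x, f x ∂μ) / t := by
  rw [le_div_iff₀ ht, mul_comm]
  exact mul_meas_ge_le_integral_of_nonneg (Eventually.of_forall h0) hf t

variable {D : ℕ}

lemma ms_abs (c δ : ℝ) : MeasurableSet {y : ℝ | |c + y| ≤ δ} :=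
  measurableSet_le (by fun_prop) measurable_const

lemma one (u : ES D) (κ s : ℝ) (hκ : 0 < κ) (hu : κ ≤ ‖u‖) (hs : 0 ≤ s) :
    (gam D).real {W | |⟪u, W⟫| ≤ s} ≤ s / κ := by
  have h := gs ‖u‖ 0 s (hκ.trans_le hu)
  rw [← map_inner, Measure.map_apply (measurable_inner' u) (ms_abs 0 s)] at h
  simp only [zero_add, Set.preimage_ofPred_eq] at h
  refine (ENNReal.toReal_le_of_le_ofReal (by positivity) h).trans ?_
  gcongr

lemma null (u : ES D) (hu : u ≠ 0) : gam D {W | ⟪u, W⟫ = (0 : ℝ)} = 0 := by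
  have h := gs ‖u‖ 0 0 (norm_pos_iff.2 hu)
  rw [← map_inner, Measure.map_apply (measurable_inner' u) (ms_abs 0 0)] at h
  simp only [zero_add, abs_nonpos_iff, zero_div, ENNReal.ofReal_zero, nonpos_iff_eq_zero] at h
  exact h

lemma two (a b : ES D) (κ s t : ℝ) (hκ : 0 < κ) (hs : 0 ≤ s) (ht : 0 ≤ t)
    (h : ∀ α β : ℝ, κ ^ 2 * (α ^ 2 + β ^ 2) ≤ ‖α • a + β • b‖ ^ 2) :
    (gam D).real {W | |⟪a, W⟫| ≤ s ∧ |⟪b, W⟫| ≤ t} ≤ s * t / κ ^ 2 := by
  have hb : κ ≤ ‖b‖ := by
    have := h 0 1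
    exact (pow_le_pow_iff_left₀ hκ.le (norm_nonneg _) two_ne_zero).1 (by simpa using this)
  set lam : ℝ := ⟪b, a⟫ / ‖b‖ ^ 2 with hlam
  set c : ES D := a - lam • b with hc
  have hcn : κ ≤ ‖c‖ := by
    have := h 1 (-lam)
    rw [one_smul, neg_smul, ← sub_eq_add_neg] at this
    exact (pow_le_pow_iff_left₀ hκ.le (norm_nonneg _) two_ne_zero).1 (by nlinarith [sq_nonneg lam, sq_nonneg κ])
  have hb0 : 0 < ‖b‖ := hκ.trans_le hb
  have horth : ⟪b, c⟫ = (0 : ℝ) := by
    rw [hc, inner_sub_right, real_inner_smul_right, real_inner_self_eq_norm_sq, hlam]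
    field_simp
    ring
  have hG : HasGaussianLaw (fun W : ES D => (⟪b, W⟫, ⟪c, W⟫)) (gam D) :=
    (IsGaussian.hasGaussianLaw_id (μ := gam D)).map_of_measurable
      ((innerSL ℝ b).prod (innerSL ℝ c)) (by fun_prop)
  have hI := hG.indepFun_of_covariance_eq_zero (by rw [cov_inner, horth])
  have hm := hI.map_prod_eq_prod_map_map (measurable_inner' b).aemeasurable
    (measurable_inner' c).aemeasurable
  rw [map_inner, map_inner] at hm
  have hS : MeasurableSet {z : ℝ × ℝ | |0 + z.1| ≤ t ∧ |lam * z.1 + z.2| ≤ s} :=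
    (measurableSet_le (f := fun z : ℝ × ℝ => |0 + z.1|) (by fun_prop) measurable_const).inter
      (measurableSet_le (f := fun z : ℝ × ℝ => |lam * z.1 + z.2|) (by fun_prop) measurable_const)
  have e : {W : ES D | |⟪a, W⟫| ≤ s ∧ |⟪b, W⟫| ≤ t} = (fun W : ES D => (⟪b, W⟫, ⟪c, W⟫)) ⁻¹'
      {z : ℝ × ℝ | |0 + z.1| ≤ t ∧ |lam * z.1 + z.2| ≤ s} := by
    ext W
    simp only [Set.mem_ofPred_eq, Set.mem_preimage, hc, inner_sub_left, real_inner_smul_left,
      zero_add, add_sub_cancel]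
    exact and_comm
  have key : gam D {W : ES D | |⟪a, W⟫| ≤ s ∧ |⟪b, W⟫| ≤ t} ≤
      ENNReal.ofReal (s / ‖c‖) * ENNReal.ofReal (t / ‖b‖) := by
    rw [e, ← Measure.map_apply (by fun_prop) hS, hm, Measure.prod_apply hS]
    calc _ ≤ ∫⁻ x, {y : ℝ | |0 + y| ≤ t}.indicator (fun _ => ENNReal.ofReal (s / ‖c‖)) x
          ∂gaussianReal 0 (‖b‖ ^ 2).toNNReal := by
          refine lintegral_mono fun x => ?_
          by_cases hx : x ∈ {y : ℝ | |0 + y| ≤ t}
          · rw [Set.indicator_of_mem hx]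
            exact (measure_mono fun y hy => hy.2).trans (gs ‖c‖ (lam * x) s (hκ.trans_le hcn))
          · rw [Set.indicator_of_notMem hx]
            exact (measure_mono (t := ∅) fun y hy => hx hy.1).trans measure_empty.le
      _ = ENNReal.ofReal (s / ‖c‖) * gaussianReal 0 (‖b‖ ^ 2).toNNReal {y : ℝ | |0 + y| ≤ t} :=
          lintegral_indicator_const (ms_abs 0 t) _
      _ ≤ _ := by
          gcongr
          exact gs ‖b‖ 0 t hb0
  rw [← ENNReal.ofReal_mul (by positivity)] at key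
  refine (ENNReal.toReal_le_of_le_ofReal (by positivity) key).trans ?_
  rw [div_mul_div_comm, sq]
  gcongr

lemma tail : ∃ C₀ : ℝ, 0 ≤ C₀ ∧ ∀ (D : ℕ) (u : ES D) (t : ℝ), 0 < t →
    (gam D).real {W | t ≤ |⟪u, W⟫|} ≤ C₀ * ‖u‖ ^ 10 / t ^ 10 := by
  refine ⟨∫ x, |x| ^ 10 ∂gaussianReal 0 1, integral_nonneg fun x => by positivity,
    fun D u t ht => ?_⟩
  have hi : Integrable (fun W : ES D => |⟪u, W⟫| ^ 10) (gam D) :=
    (IsGaussian.memLp_dual (gam D) (innerSL ℝ u) (10 : ℕ) (by simp)).integrable_norm_pow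
      (by norm_num)
  have h1 := markov (gam D) _ (fun W => by positivity) hi (pow_pos ht 10)
  have h2 : ∫ W, |⟪u, W⟫| ^ 10 ∂gam D = (∫ x, |x| ^ 10 ∂gaussianReal 0 1) * ‖u‖ ^ 10 := by
    have e : (gam D).map (fun W => ⟪u, W⟫) = (gaussianReal 0 1).map (‖u‖ * ·) := by
      rw [map_inner, gaussianReal_map_const_mul, mul_zero, mul_one]
      congr 1
      exact Real.toNNReal_of_nonneg _
    rw [← integral_map (f := fun x : ℝ => |x| ^ 10) (measurable_inner' u).aemeasurable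
      (by fun_prop), e, integral_map (by fun_prop) (by fun_prop), ← integral_mul_const]
    refine integral_congr_ae (Eventually.of_forall fun x => ?_)
    simp only [abs_mul, abs_norm, mul_pow, mul_comm]
  rw [← h2]
  exact (measureReal_mono fun W hW => pow_le_pow_left₀ ht.le hW 10).trans h1

lemma coef (m : ℕ) (φ : ℕ → ES D) (t : ℝ) (ht : 0 < t) (h : ONf φ m) :
    (gam D).real {W | t ≤ ∑ k ∈ Finset.range m, ⟪φ k, W⟫ ^ 2} ≤ m / t := by
  refine (markov (gam D) _ (fun W => by positivity)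
    (integrable_finsetSum _ fun k _ => (memLp_inner (φ k)).integrable_sq) ht).trans (le_of_eq ?_)
  rw [integral_finsetSum _ fun k _ => (memLp_inner (φ k)).integrable_sq]
  congr 1
  rw [Finset.sum_congr rfl fun k hk => by
    rw [integral_inner_sq, ← real_inner_self_eq_norm_sq,
      h k (Finset.mem_range.1 hk) k (Finset.mem_range.1 hk), if_pos rfl]]
  simp

lemma nrm (t : ℝ) (ht : 0 < t) : (gam D).real {W | t ≤ ‖W‖} ≤ D / t ^ 2 := by
  have e : ∀ W : ES D, ‖W‖ ^ 2 = ∑ i, ⟪EuclideanSpace.basisFun (Fin D) ℝ i, W⟫ ^ 2 := fun W =>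
    ((EuclideanSpace.basisFun (Fin D) ℝ).sum_sq_inner_right W).symm
  have hi : Integrable (fun W : ES D => ‖W‖ ^ 2) (gam D) := by
    simp only [e]
    exact integrable_finsetSum _ fun k _ => (memLp_inner _).integrable_sq
  have h1 := markov (gam D) _ (fun W => by positivity) hi (pow_pos ht 2)
  have h2 : ∫ W : ES D, ‖W‖ ^ 2 ∂gam D = D := by
    simp only [e]
    rw [integral_finsetSum _ fun k _ => (memLp_inner _).integrable_sq]
    simp [integral_inner_sq]
  rw [← h2]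
  exact (measureReal_mono fun W hW => pow_le_pow_left₀ ht.le hW 2).trans h1

theorem rowSB : RowSB :=
  ⟨fun _ => one, fun _ => null, fun _ => two, tail, fun _ => coef, fun _ => nrm⟩

end Pool.Agent.MP_f6b137_pr.H56
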